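import Mathlib
import Pool.Agent.X48.SumDiff

/-!
For every `β < 1/2` there are bipartite graphs (trees of diameter four) of arbitrarily large sum
index whose difference index is at least `(1 + β)` times half of the sum index, rounded up.
-/

namespace Pool.Agent.Results.MP_ee2194_co.ConstantFactor

open Pool.Agent.X48.SumDiff

theorem result : ∀ β : ℝ, β < 1 / 2 → ∀ N : ℕ, ∃ (V : Type) (_ : Fintype V) (G : SimpleGraph V),
    G.Colorable 2 ∧ (∃ u v, G.Adj u v) ∧ N ≤ sumIndex G ∧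
      (1 + β) * (⌈(sumIndex G : ℝ) / 2⌉ : ℝ) ≤ (diffIndex G : ℝ) := by
  intro β hβ N
  obtain ⟨t, ht⟩ := exists_nat_ge (max (1 / (1 - 2 * β)) (max (N : ℝ) 1))
  have ht1 : 1 / (1 - 2 * β) ≤ (t : ℝ) := le_trans (le_max_left _ _) ht
  have ht2 : (N : ℝ) ≤ t := le_trans (le_trans (le_max_left _ _) (le_max_right _ _)) ht
  have ht3 : (1 : ℝ) ≤ t := le_trans (le_trans (le_max_right _ _) (le_max_right _ _)) ht
  have ht3' : 1 ≤ t := by exact_mod_cast ht3
  have ht2' : N ≤ t := by exact_mod_cast ht2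
  have hm : 0 < 2 * t := by omega
  refine ⟨Option (Fin (2 * t) × Fin (2 * t)), inferInstance, T (2 * t), bip _,
    ⟨none, some (⟨0, hm⟩, ⟨0, hm⟩), adj_root _⟩, ?_, ?_⟩
  · rw [sum_eq hm]; omega
  have h1 := diff_ge hm
  have h2 : ⌈(sumIndex (T (2 * t)) : ℝ) / 2⌉ = (t : ℤ) := by
    rw [sum_eq hm]
    have : ((2 * t : ℕ) : ℝ) / 2 = ((t : ℤ) : ℝ) := by push_cast; ring
    rw [this, Int.ceil_intCast]
  rw [h2]
  have h3 : (3 * (2 * t) : ℝ) ≤ 4 * (diffIndex (T (2 * t)) : ℝ) + 2 := by exact_mod_cast h1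
  have h4 : 0 < 1 - 2 * β := by linarith
  rw [div_le_iff₀ h4] at ht1
  push_cast
  nlinarith

end Pool.Agent.Results.MP_ee2194_co.ConstantFactor
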